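import Mathlib

namespace Pool.Agent.H.MP_3b1797_co

abbrev D := Lex (EReal × Bool)

def lo (t : EReal) : D := toLex (t, false)
def hi (t : EReal) : D := toLex (t, true)
def re (p : D) : EReal := (ofLex p).1

lemma D_cases (p : D) : p = lo (re p) ∨ p = hi (re p) := by
  obtain ⟨⟨t, b⟩, rfl⟩ := toLex.surjective p
  cases b
  · left; rfl
  · right; rfl

lemma lt_of_re {p q : D} (h : re p < re q) : p < q := by
  rw [Prod.Lex.lt_iff]; left; exact h

lemma re_le {p q : D} (h : p ≤ q) : re p ≤ re q := by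
  by_contra hc
  exact absurd (lt_of_re (not_le.1 hc)) (not_lt.2 h)

@[simp] lemma re_lo (t : EReal) : re (lo t) = t := rfl
@[simp] lemma re_hi (t : EReal) : re (hi t) = t := rfl

lemma lo_lt_hi (t : EReal) : lo t < hi t := by
  rw [Prod.Lex.lt_iff]; right; exact ⟨rfl, Bool.false_lt_true⟩

lemma lo_le {t : EReal} {p : D} (h : t ≤ re p) : lo t ≤ p := by
  rcases h.lt_or_eq with h | h
  · exact (lt_of_re (by simpa using h)).le
  · rcases D_cases p with hp | hp
    · rw [hp, h]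
    · rw [hp, h]; exact (lo_lt_hi _).le

lemma le_hi {t : EReal} {p : D} (h : re p ≤ t) : p ≤ hi t := by
  rcases h.lt_or_eq with h | h
  · exact (lt_of_re (by simpa using h)).le
  · rcases D_cases p with hp | hp
    · rw [hp, h]; exact (lo_lt_hi _).le
    · rw [hp, h]

lemma le_lo_of_lt_hi {t : EReal} {p : D} (h : p < hi t) : p ≤ lo t := by
  have h1 : re p ≤ t := by simpa using re_le h.le
  rcases h1.lt_or_eq with h1 | h1
  · exact (lt_of_re (by simpa using h1)).le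
  · rcases D_cases p with hp | hp
    · rw [hp, h1]
    · rw [hp, h1] at h; exact absurd h (lt_irrefl _)

lemma hi_le_of_lo_lt {t : EReal} {p : D} (h : lo t < p) : hi t ≤ p := by
  by_contra hc
  exact absurd (le_lo_of_lt_hi (not_le.1 hc)) (not_le.2 h)

lemma D_lub (S : Set D) : ∃ s, IsLUB S s ∧ (s ∉ S → ∃ t, s = lo t) := by
  have hub : ∀ p ∈ S, re p ≤ sSup (re '' S) := fun p hp => le_sSup ⟨p, hp, rfl⟩
  by_cases h : hi (sSup (re '' S)) ∈ S
  · exact ⟨_, ⟨fun p hp => le_hi (hub p hp), fun u hu => hu h⟩, fun h' => absurd h h'⟩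
  · refine ⟨lo (sSup (re '' S)), ⟨fun p hp => le_lo_of_lt_hi ?_, fun u hu => lo_le ?_⟩,
      fun _ => ⟨_, rfl⟩⟩
    · refine lt_of_le_of_ne (le_hi (hub p hp)) ?_
      rintro rfl
      exact h hp
    · refine sSup_le ?_
      rintro _ ⟨p, hp, rfl⟩
      exact re_le (hu hp)

lemma D_glb (S : Set D) : ∃ s, IsGLB S s ∧ (s ∉ S → ∃ t, s = hi t) := by
  have hub : ∀ p ∈ S, sInf (re '' S) ≤ re p := fun p hp => sInf_le ⟨p, hp, rfl⟩
  by_cases h : lo (sInf (re '' S)) ∈ S
  · exact ⟨_, ⟨fun p hp => lo_le (hub p hp), fun u hu => hu h⟩, fun h' => absurd h h'⟩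
  · refine ⟨hi (sInf (re '' S)), ⟨fun p hp => hi_le_of_lo_lt ?_, fun u hu => le_hi ?_⟩,
      fun _ => ⟨_, rfl⟩⟩
    · refine lt_of_le_of_ne (lo_le (hub p hp)) ?_
      rintro rfl
      exact h hp
    · refine le_sInf ?_
      rintro _ ⟨p, hp, rfl⟩
      exact re_le (hu hp)

abbrev Ev := EReal × EReal
abbrev L := Ev × ((Ev → EReal) × (Ev → EReal))

def X (i : ℤ) (l m : L) : EReal := if i % 2 = 0 then m.2.1 l.1 else m.1.1
def E (i : ℤ) (l m : L) : EReal := if i % 2 = 0 then l.1.2 else l.2.2 m.1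

inductive P | bot | top | mid (i : ℤ) (l : L) (p : D)

open P

def le : P → P → Prop
  | .bot, _ => True
  | .top, .top => True
  | .top, _ => False
  | .mid _ _ _, .top => True
  | .mid _ _ _, .bot => False
  | .mid i l p, .mid j m q =>
      (i = j ∧ l = m ∧ p ≤ q) ∨ (i + 1 = j ∧ p ≤ lo (X i l m) ∧ hi (E i l m) ≤ q) ∨ i + 2 ≤ j

instance : PartialOrder P where
  le := le
  le_refl a := by cases a <;> simp [le]
  le_trans a b c hab hbc := by
    cases a <;> cases b <;> cases c <;> simp only [le] at hab hbc ⊢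
    rename_i i l p j m q k n r
    rcases hab with ⟨rfl, rfl, h1⟩ | ⟨h1, h2, h3⟩ | h1
    · rcases hbc with ⟨rfl, rfl, h2⟩ | ⟨h2, h3, h4⟩ | h2
      · exact Or.inl ⟨rfl, rfl, h1.trans h2⟩
      · exact Or.inr (Or.inl ⟨h2, h1.trans h3, h4⟩)
      · exact Or.inr (Or.inr h2)
    · rcases hbc with ⟨rfl, rfl, h4⟩ | ⟨h4, -, -⟩ | h4
      · exact Or.inr (Or.inl ⟨h1, h2, h3.trans h4⟩)
      · exact Or.inr (Or.inr (by omega))
      · exact Or.inr (Or.inr (by omega))
    · rcases hbc with ⟨h4, -, -⟩ | ⟨h4, -, -⟩ | h4 <;> exact Or.inr (Or.inr (by omega))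
  le_antisymm a b hab hba := by
    cases a <;> cases b <;> simp only [le] at hab hba ⊢
    rename_i i l p j m q
    rcases hab with ⟨rfl, rfl, h1⟩ | ⟨h1, -, -⟩ | h1
    · rcases hba with ⟨-, -, h2⟩ | ⟨h2, -, -⟩ | h2
      · rw [le_antisymm h1 h2]
      · omega
      · omega
    · rcases hba with ⟨h2, -, -⟩ | ⟨h2, -, -⟩ | h2 <;> omega
    · rcases hba with ⟨h2, -, -⟩ | ⟨h2, -, -⟩ | h2 <;> omega

@[simp] lemma bot_le' (a : P) : bot ≤ a := by cases a <;> trivial
@[simp] lemma le_top' (a : P) : a ≤ top := by cases a <;> trivial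
@[simp] lemma top_mid (i l p) : ¬ top ≤ mid i l p := fun h => h
@[simp] lemma mid_bot (i l p) : ¬ mid i l p ≤ bot := fun h => h
@[simp] lemma top_bot : ¬ top ≤ bot := fun h => h
lemma mm {i j : ℤ} {l m : L} {p q : D} : mid i l p ≤ mid j m q ↔
    (i = j ∧ l = m ∧ p ≤ q) ∨ (i + 1 = j ∧ p ≤ lo (X i l m) ∧ hi (E i l m) ≤ q) ∨ i + 2 ≤ j :=
  Iff.rfl

lemma lev {i j : ℤ} {l m : L} {p q : D} (h : mid i l p ≤ mid j m q) : i ≤ j := by
  rcases mm.1 h with ⟨h, -⟩ | ⟨h, -⟩ | h <;> omega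

lemma same {i : ℤ} {l m : L} {p q : D} : mid i l p ≤ mid i m q ↔ l = m ∧ p ≤ q := by
  rw [mm]
  constructor
  · rintro (⟨-, h⟩ | ⟨h, -⟩ | h)
    · exact h
    · omega
    · omega
  · exact fun h => Or.inl ⟨rfl, h⟩

lemma next {i : ℤ} {l m : L} {p q : D} :
    mid i l p ≤ mid (i + 1) m q ↔ p ≤ lo (X i l m) ∧ hi (E i l m) ≤ q := by
  rw [mm]
  constructor
  · rintro (⟨h, -⟩ | ⟨-, h⟩ | h)
    · omega
    · exact h
    · omega
  · exact fun h => Or.inr (Or.inl ⟨rfl, h⟩)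

lemma far {i j : ℤ} {l m : L} {p q : D} (h : i + 2 ≤ j) : mid i l p ≤ mid j m q :=
  Or.inr (Or.inr h)

lemma lt_lev {i j : ℤ} {l m : L} {p q : D} (h : mid i l p ≤ mid j m q) (hij : i ≠ j) :
    mid i l p < mid j m q := lt_of_le_of_ne h (by simp [hij])

lemma lt_same {i : ℤ} {l : L} {p q : D} (h : p < q) : mid i l p < mid i l q :=
  lt_of_le_of_ne (same.2 ⟨rfl, h.le⟩) (by simp [h.ne])

lemma cmp {C : Set P} (hC : IsChain (· ≤ ·) C) {a b : P} (ha : a ∈ C) (hb : b ∈ C) :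
    a ≤ b ∨ b ≤ a := hC.total ha hb

lemma cmp_up {C : Set P} (hC : IsChain (· ≤ ·) C) {i j : ℤ} {l m : L} {p q : D}
    (ha : mid i l p ∈ C) (hb : mid j m q ∈ C) (h : i < j) : mid i l p ≤ mid j m q := by
  rcases cmp hC ha hb with h1 | h1
  · exact h1
  · have := lev h1; omega

lemma cmp_same {C : Set P} (hC : IsChain (· ≤ ·) C) {i : ℤ} {l m : L} {p q : D}
    (ha : mid i l p ∈ C) (hb : mid i m q ∈ C) : l = m := by
  rcases cmp hC ha hb with h1 | h1
  · exact (same.1 h1).1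
  · exact (same.1 h1).1.symm

theorem sup_reg (C : Set P) (hC : IsChain (· ≤ ·) C) (hne : C.Nonempty) :
    ∃ s, IsLUB C s ∧ ∀ x, x < s → ∃ c ∈ C, x < c := by
  by_cases hmax : ∃ m ∈ C, ∀ c ∈ C, c ≤ m
  · obtain ⟨m, hm, h⟩ := hmax
    exact ⟨m, ⟨h, fun u hu => hu hm⟩, fun x hx => ⟨m, hm, hx⟩⟩
  have htop : top ∉ C := fun h => hmax ⟨top, h, fun c _ => le_top' c⟩
  have hmid : ∃ i, ∃ l p, mid i l p ∈ C := by
    by_contra hc
    obtain ⟨a, ha⟩ := hne
    have hb : ∀ c ∈ C, c = bot := by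
      intro c hcC
      cases c with
      | bot => rfl
      | top => exact absurd hcC htop
      | mid i l p => exact absurd ⟨i, l, p, hcC⟩ hc
    exact hmax ⟨a, ha, fun c hcC => by rw [hb c hcC]; simp⟩
  by_cases hbd : ∃ b : ℤ, ∀ i, (∃ l p, mid i l p ∈ C) → i ≤ b
  · obtain ⟨i, ⟨l, p0, hp0⟩, hi⟩ := Int.exists_greatest_of_bdd hbd hmid
    obtain ⟨s, hs, hs2⟩ := D_lub {p | mid i l p ∈ C}
    have hub : ∀ c ∈ C, c ≤ mid i l s := by
      intro c hc
      cases c with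
      | bot => simp
      | top => exact absurd hc htop
      | mid j m q =>
        rcases (hi j ⟨m, q, hc⟩).lt_or_eq with h | rfl
        · exact (cmp_up hC hc hp0 h).trans (same.2 ⟨rfl, hs.1 hp0⟩)
        · obtain rfl := cmp_same hC hc hp0
          exact same.2 ⟨rfl, hs.1 hc⟩
    have hnot : mid i l s ∉ C := fun h => hmax ⟨_, h, hub⟩
    obtain ⟨t, rfl⟩ := hs2 hnot
    refine ⟨mid i l (lo t), ⟨hub, fun u hu => ?_⟩, fun x hx => ?_⟩
    · cases u with
      | bot => exact absurd (hu hp0) (by simp)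
      | top => simp
      | mid j m q =>
        rcases mm.1 (hu hp0) with ⟨rfl, rfl, -⟩ | ⟨rfl, -⟩ | h
        · exact same.2 ⟨rfl, hs.2 fun p hp => (same.1 (hu hp)).2⟩
        · exact next.2 ⟨hs.2 fun p hp => (next.1 (hu hp)).1, (next.1 (hu hp0)).2⟩
        · exact far h
    · cases x with
      | bot => exact ⟨_, hp0, lt_of_le_of_ne (by simp) (by simp)⟩
      | top => exact absurd hx.le (by simp)
      | mid j m q =>
        rcases mm.1 hx.le with ⟨rfl, rfl, h⟩ | ⟨rfl, h1, h2⟩ | h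
        · have hlt : q < lo t := lt_of_le_of_ne h (by rintro rfl; exact lt_irrefl _ hx)
          obtain ⟨p, hp, hqp⟩ := (lt_isLUB_iff hs).1 hlt
          exact ⟨_, hp, lt_same hqp⟩
        · have hlt : H.MP_3b1797_co.hi (E j m l) < lo t := by
            refine lt_of_le_of_ne h2 fun h => ?_
            have h3 := congrArg re h
            simp only [re_hi, re_lo] at h3
            rw [h3] at h
            exact (lo_lt_hi t).ne h.symm
          obtain ⟨p, hp, hqp⟩ := (lt_isLUB_iff hs).1 hlt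
          exact ⟨_, hp, lt_lev (next.2 ⟨h1, hqp.le⟩) (by omega)⟩
        · exact ⟨_, hp0, lt_lev (far h) (by omega)⟩
  · push Not at hbd
    refine ⟨top, ⟨fun c _ => le_top' c, fun u hu => ?_⟩, fun x hx => ?_⟩
    · cases u with
      | bot => obtain ⟨i, l, p, h⟩ := hmid; exact absurd (hu h) (by simp)
      | top => simp
      | mid j m q =>
        obtain ⟨i, ⟨l, p, h⟩, hij⟩ := hbd j
        have := lev (hu h); omega
    · cases x with
      | bot => obtain ⟨i, l, p, h⟩ := hmid; exact ⟨_, h, lt_of_le_of_ne (by simp) (by simp)⟩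
      | top => exact absurd hx (lt_irrefl _)
      | mid j m q =>
        obtain ⟨i, ⟨l, p, h⟩, hij⟩ := hbd (j + 1)
        exact ⟨_, h, lt_lev (far (by omega)) (by omega)⟩

theorem inf_reg (C : Set P) (hC : IsChain (· ≤ ·) C) (hne : C.Nonempty) :
    ∃ s, IsGLB C s ∧ ∀ x, s < x → ∃ c ∈ C, c < x := by
  by_cases hmax : ∃ m ∈ C, ∀ c ∈ C, m ≤ c
  · obtain ⟨m, hm, h⟩ := hmax
    exact ⟨m, ⟨h, fun u hu => hu hm⟩, fun x hx => ⟨m, hm, hx⟩⟩
  have htop : bot ∉ C := fun h => hmax ⟨bot, h, fun c _ => bot_le' c⟩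
  have hmid : ∃ i, ∃ l p, mid i l p ∈ C := by
    by_contra hc
    obtain ⟨a, ha⟩ := hne
    have hb : ∀ c ∈ C, c = top := by
      intro c hcC
      cases c with
      | top => rfl
      | bot => exact absurd hcC htop
      | mid i l p => exact absurd ⟨i, l, p, hcC⟩ hc
    exact hmax ⟨a, ha, fun c hcC => by rw [hb c hcC]; simp⟩
  by_cases hbd : ∃ b : ℤ, ∀ i, (∃ l p, mid i l p ∈ C) → b ≤ i
  · obtain ⟨i, ⟨l, p0, hp0⟩, hi⟩ := Int.exists_least_of_bdd hbd hmid
    obtain ⟨s, hs, hs2⟩ := D_glb {p | mid i l p ∈ C}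
    have hub : ∀ c ∈ C, mid i l s ≤ c := by
      intro c hc
      cases c with
      | top => simp
      | bot => exact absurd hc htop
      | mid j m q =>
        rcases (hi j ⟨m, q, hc⟩).lt_or_eq with h | rfl
        · exact (same.2 ⟨rfl, hs.1 hp0⟩).trans (cmp_up hC hp0 hc h)
        · obtain rfl := cmp_same hC hc hp0
          exact same.2 ⟨rfl, hs.1 hc⟩
    have hnot : mid i l s ∉ C := fun h => hmax ⟨_, h, hub⟩
    obtain ⟨t, rfl⟩ := hs2 hnot
    refine ⟨mid i l (H.MP_3b1797_co.hi t), ⟨hub, fun u hu => ?_⟩, fun x hx => ?_⟩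
    · cases u with
      | top => exact absurd (hu hp0) (by simp)
      | bot => simp
      | mid j m q =>
        rcases mm.1 (hu hp0) with ⟨rfl, rfl, -⟩ | ⟨rfl, -⟩ | h
        · exact same.2 ⟨rfl, hs.2 fun p hp => (same.1 (hu hp)).2⟩
        · exact next.2 ⟨(next.1 (hu hp0)).1, hs.2 fun p hp => (next.1 (hu hp)).2⟩
        · exact far h
    · cases x with
      | top => exact ⟨_, hp0, lt_of_le_of_ne (by simp) (by simp)⟩
      | bot => exact absurd hx.le (by simp)
      | mid j m q =>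
        rcases mm.1 hx.le with ⟨rfl, rfl, h⟩ | ⟨rfl, h1, h2⟩ | h
        · have hlt : H.MP_3b1797_co.hi t < q :=
            lt_of_le_of_ne h (by rintro rfl; exact lt_irrefl _ hx)
          obtain ⟨p, hp, hqp⟩ := (isGLB_lt_iff hs).1 hlt
          exact ⟨_, hp, lt_same hqp⟩
        · have hlt : H.MP_3b1797_co.hi t < lo (X i l m) := by
            refine lt_of_le_of_ne h1 fun h => ?_
            have h3 := congrArg re h
            simp only [re_hi, re_lo] at h3
            rw [← h3] at h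
            exact (lo_lt_hi t).ne h.symm
          obtain ⟨p, hp, hqp⟩ := (isGLB_lt_iff hs).1 hlt
          exact ⟨_, hp, lt_lev (next.2 ⟨hqp.le, h2⟩) (by omega)⟩
        · exact ⟨_, hp0, lt_lev (far h) (by omega)⟩
  · push Not at hbd
    refine ⟨bot, ⟨fun c _ => bot_le' c, fun u hu => ?_⟩, fun x hx => ?_⟩
    · cases u with
      | top => obtain ⟨i, l, p, h⟩ := hmid; exact absurd (hu h) (by simp)
      | bot => simp
      | mid j m q =>
        obtain ⟨i, ⟨l, p, h⟩, hij⟩ := hbd j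
        have := lev (hu h); omega
    · cases x with
      | top => obtain ⟨i, l, p, h⟩ := hmid; exact ⟨_, h, lt_of_le_of_ne (by simp) (by simp)⟩
      | bot => exact absurd hx (lt_irrefl _)
      | mid j m q =>
        obtain ⟨i, ⟨l, p, h⟩, hij⟩ := hbd (j - 1)
        exact ⟨_, h, lt_lev (far (by omega)) (by omega)⟩

end Pool.Agent.H.MP_3b1797_co
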