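import Mathlib
import Pool.Agent.H.MP_3b1797_co.A

namespace Pool.Agent.H.MP_3b1797_co

open P

lemma mem_max {G : Set P} (hG : IsMaxChain (· ≤ ·) G) {z : P}
    (h : ∀ c ∈ G, z ≤ c ∨ c ≤ z) : z ∈ G := by
  have h1 : IsChain (· ≤ ·) (insert z G) := hG.1.insert fun c hc _ => h c hc
  rw [hG.2 h1 (Set.subset_insert _ _)]
  exact Set.mem_insert _ _

lemma hi_ne_lo (s t : EReal) : hi s ≠ lo t := by
  intro h
  have h3 := congrArg re h
  simp only [re_hi, re_lo] at h3
  rw [h3] at h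
  exact (lo_lt_hi t).ne h.symm

lemma up_nbhd {G : Set P} (hG : IsMaxChain (· ≤ ·) G) {i : ℤ} {l : L} {t v : EReal}
    (hk : mid i l (hi t) ∈ G) (hv : t < v) :
    ∃ w, t < w ∧ ∀ z, t < re z → re z < w → mid i l z ∈ G := by
  have key : ∃ p', hi t < p' ∧ ∀ m q, mid (i + 1) m q ∈ G → mid i l p' ≤ mid (i + 1) m q := by
    by_cases h : ∃ m q, mid (i + 1) m q ∈ G
    · obtain ⟨m, q, hq⟩ := h
      have h1 := next.1 (cmp_up hG.1 hk hq (by omega))
      refine ⟨lo (X i l m), lt_of_le_of_ne h1.1 (hi_ne_lo _ _), fun m' q' hq' => ?_⟩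
      obtain rfl := cmp_same hG.1 hq hq'
      exact next.2 ⟨le_rfl, (next.1 (cmp_up hG.1 hk hq' (by omega))).2⟩
    · exact ⟨hi v, lt_of_re (by simpa using hv), fun m q hq => absurd ⟨m, q, hq⟩ h⟩
  obtain ⟨p', h1, h2⟩ := key
  refine ⟨re p', ?_, fun z hz1 hz2 => mem_max hG fun c hc => ?_⟩
  · by_contra hc
    exact absurd (le_hi (not_lt.1 hc)) (not_le.2 h1)
  · cases c with
    | bot => simp
    | top => simp
    | mid j m q =>
      rcases lt_trichotomy j i with h | rfl | h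
      · exact Or.inr ((cmp_up hG.1 hc hk h).trans
          (same.2 ⟨rfl, (lt_of_re (by simpa using hz1)).le⟩))
      · obtain rfl := cmp_same hG.1 hc hk
        rcases le_total z q with h | h
        · exact Or.inl (same.2 ⟨rfl, h⟩)
        · exact Or.inr (same.2 ⟨rfl, h⟩)
      · by_cases hj : j = i + 1
        · subst hj
          exact Or.inl ((same.2 ⟨rfl, (lt_of_re hz2).le⟩).trans (h2 m q hc))
        · exact Or.inl (far (by omega))

lemma down_nbhd {G : Set P} (hG : IsMaxChain (· ≤ ·) G) {i : ℤ} {l : L} {t v : EReal}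
    (hk : mid (i + 1) l (lo t) ∈ G) (hv : v < t) :
    ∃ w, w < t ∧ ∀ z, w < re z → re z < t → mid (i + 1) l z ∈ G := by
  have key : ∃ p', p' < lo t ∧ ∀ m q, mid i m q ∈ G → mid i m q ≤ mid (i + 1) l p' := by
    by_cases h : ∃ m q, mid i m q ∈ G
    · obtain ⟨m, q, hq⟩ := h
      have h1 := next.1 (cmp_up hG.1 hq hk (by omega))
      refine ⟨hi (E i m l), lt_of_le_of_ne h1.2 (hi_ne_lo _ _), fun m' q' hq' => ?_⟩
      obtain rfl := cmp_same hG.1 hq hq'
      exact next.2 ⟨(next.1 (cmp_up hG.1 hq' hk (by omega))).1, le_rfl⟩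
    · exact ⟨lo v, lt_of_re (by simpa using hv), fun m q hq => absurd ⟨m, q, hq⟩ h⟩
  obtain ⟨p', h1, h2⟩ := key
  refine ⟨re p', ?_, fun z hz1 hz2 => mem_max hG fun c hc => ?_⟩
  · by_contra hc
    exact absurd (lo_le (not_lt.1 hc)) (not_le.2 h1)
  · cases c with
    | bot => simp
    | top => simp
    | mid j m q =>
      rcases lt_trichotomy j (i + 1) with h | rfl | h
      · by_cases hj : j = i
        · subst hj
          exact Or.inr ((h2 m q hc).trans (same.2 ⟨rfl, (lt_of_re hz1).le⟩))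
        · exact Or.inr (far (by omega))
      · obtain rfl := cmp_same hG.1 hc hk
        rcases le_total z q with h | h
        · exact Or.inl (same.2 ⟨rfl, h⟩)
        · exact Or.inr (same.2 ⟨rfl, h⟩)
      · exact Or.inl ((same.2 ⟨rfl, (lt_of_re (by simpa using hz2)).le⟩).trans
          (cmp_up hG.1 hk hc h))

lemma free {K : Set P} (hK : ∀ k ∈ K, ∃ G, IsMaxChain (· ≤ ·) G ∧ k ∈ G ∧ ∀ z ∈ G, z ∈ K → z = k)
    (i : ℤ) (l : L) : ∃ a b : EReal, a < b ∧ ∀ p, a ≤ re p → re p ≤ b → mid i l p ∉ K := by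
  by_contra hc
  push Not at hc
  obtain ⟨p, h0, h1, hp⟩ := hc 0 1 zero_lt_one
  obtain ⟨G, hG, hk, hpr⟩ := hK _ hp
  have fin : ∀ u w : EReal, u < w → (∀ z, u < re z → re z < w → mid i l z ∈ G) →
      (re p ≤ u ∨ w ≤ re p) → False := by
    intro u w huw h hh
    obtain ⟨a, ha1, ha2⟩ := exists_between huw
    obtain ⟨b, hb1, hb2⟩ := exists_between ha2
    obtain ⟨q, hq1, hq2, hq⟩ := hc a b hb1
    have := hpr _ (h q (ha1.trans_le hq1) (hq2.trans_lt hb2)) hq
    simp only [mid.injEq, true_and] at this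
    subst this
    rcases hh with hh | hh
    · exact absurd (ha1.trans_le hq1) (not_lt.2 hh)
    · exact absurd (hq2.trans_lt hb2) (not_lt.2 hh)
  rcases D_cases p with h | h
  · obtain ⟨j, rfl⟩ : ∃ j, i = j + 1 := ⟨i - 1, by ring⟩
    rw [h] at hk
    obtain ⟨w, hw, hh⟩ := down_nbhd hG hk (v := ⊥) (lt_of_lt_of_le EReal.bot_lt_zero h0)
    exact fin w (re p) hw hh (Or.inr le_rfl)
  · rw [h] at hk
    obtain ⟨w, hw, hh⟩ := up_nbhd hG hk (v := ⊤)
      (lt_of_le_of_lt h1 (by exact_mod_cast EReal.coe_lt_top 1))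
    exact fin (re p) w hw hh (Or.inl le_rfl)

def road (lam : ℤ → L) (r s : ℤ → EReal) : Set P
  | .bot => True
  | .top => True
  | .mid i l p => l = lam i ∧ hi (r i) ≤ p ∧ p ≤ lo (s i)

lemma road_max (lam : ℤ → L) (r s : ℤ → EReal) (hrs : ∀ i, r i < s i)
    (hr : ∀ i, r (i + 1) = E i (lam i) (lam (i + 1)))
    (hs : ∀ i, s i = X i (lam i) (lam (i + 1))) : IsMaxChain (· ≤ ·) (road lam r s) := by
  have hup : ∀ i j l m p q, mid i l p ∈ road lam r s → mid j m q ∈ road lam r s → i < j →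
      mid i l p ≤ mid j m q := by
    rintro i j l m p q ⟨rfl, -, h1⟩ ⟨rfl, h2, -⟩ hij
    by_cases hj : j = i + 1
    · subst hj
      exact next.2 ⟨hs i ▸ h1, hr i ▸ h2⟩
    · exact far (by omega)
  have hle : ∀ i, hi (r i) ≤ lo (s i) := fun i => (lt_of_re (by simpa using hrs i)).le
  refine ⟨fun a ha b hb _ => ?_, fun T hT hsub => hsub.antisymm fun z hz => ?_⟩
  · cases a with
    | bot => simp
    | top => simp
    | mid i l p =>
      cases b with
      | bot => simp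
      | top => simp
      | mid j m q =>
        rcases lt_trichotomy i j with h | rfl | h
        · exact Or.inl (hup _ _ _ _ _ _ ha hb h)
        · obtain ⟨rfl, -⟩ := ha
          obtain ⟨rfl, -⟩ := hb
          rcases le_total p q with h | h
          · exact Or.inl (same.2 ⟨rfl, h⟩)
          · exact Or.inr (same.2 ⟨rfl, h⟩)
        · exact Or.inr (hup _ _ _ _ _ _ hb ha h)
  · cases z with
    | bot => trivial
    | top => trivial
    | mid i l p =>
      obtain ⟨j, rfl⟩ : ∃ j, i = j + 1 := ⟨i - 1, by ring⟩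
      have m1 : ∀ k, mid k (lam k) (lo (s k)) ∈ T := fun k => hsub ⟨rfl, hle k, le_rfl⟩
      obtain rfl := cmp_same hT hz (m1 _)
      refine ⟨rfl, ?_, ?_⟩
      · rw [hr]; exact (next.1 (cmp_up hT (m1 j) hz (by omega))).2
      · rw [hs]; exact (next.1 (cmp_up hT hz (m1 (j + 1 + 1)) (by omega))).1

theorem no_cut {K : Set P} (hcut : ∀ G, IsMaxChain (· ≤ ·) G → (K ∩ G).Nonempty)
    (hK : ∀ k ∈ K, ∃ G, IsMaxChain (· ≤ ·) G ∧ k ∈ G ∧ ∀ z ∈ G, z ∈ K → z = k) :
    bot ∈ K ∨ top ∈ K := by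
  choose A B hAB hfree using free hK
  obtain ⟨o, -⟩ : ∃ o : (Ev → EReal) × (Ev → EReal), True := ⟨(0, 0), trivial⟩
  obtain ⟨h, hh⟩ : ∃ h : ℤ → L, ∀ j, h j =
      ((0, 0), (fun x => B (2 * j) (x, o), fun x => A (2 * j + 2) (x, o))) := ⟨_, fun _ => rfl⟩
  obtain ⟨x, hx⟩ : ∃ x : ℤ → Ev, ∀ j, x j =
      (B (2 * j - 1) (h (j - 1)), A (2 * j + 1) (h j)) := ⟨_, fun _ => rfl⟩
  obtain ⟨lam, hl⟩ : ∃ lam : ℤ → L, ∀ i, lam i =
      if i % 2 = 0 then (x (i / 2), o) else h (i / 2) := ⟨_, fun _ => rfl⟩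
  have le : ∀ j, lam (2 * j) = (x j, o) := fun j => by
    rw [hl, if_pos (by omega), show 2 * j / 2 = j by omega]
  have lod : ∀ j, lam (2 * j + 1) = h j := fun j => by
    rw [hl, if_neg (by omega), show (2 * j + 1) / 2 = j by omega]
  have hmax := road_max lam (fun i => A i (lam i)) (fun i => B i (lam i)) (fun i => hAB _ _)
    (fun i => by
      rcases Int.even_or_odd' i with ⟨j, rfl | rfl⟩
      · simp only [E, if_pos (show 2 * j % 2 = 0 by omega), le, lod, hx]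
      · rw [show 2 * j + 1 + 1 = 2 * (j + 1) by ring]
        simp only [E, if_neg (show ¬ (2 * j + 1) % 2 = 0 by omega), le, lod]
        rw [hh, show 2 * (j + 1) = 2 * j + 2 by ring])
    (fun i => by
      rcases Int.even_or_odd' i with ⟨j, rfl | rfl⟩
      · simp only [X, if_pos (show 2 * j % 2 = 0 by omega), le, lod]
        rw [hh]
      · rw [show 2 * j + 1 + 1 = 2 * (j + 1) by ring]
        simp only [X, if_neg (show ¬ (2 * j + 1) % 2 = 0 by omega), le, lod, hx]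
        rw [show 2 * (j + 1) - 1 = 2 * j + 1 by ring, add_sub_cancel_right])
  obtain ⟨z, hz, hz2⟩ := hcut _ hmax
  cases z with
  | bot => exact Or.inl hz
  | top => exact Or.inr hz
  | mid i l p =>
    obtain ⟨rfl, h1, h2⟩ := hz2
    exact absurd hz (hfree _ _ p (by simpa using re_le h1) (by simpa using re_le h2))

theorem anti {K : Set P} (hcut : ∀ G, IsMaxChain (· ≤ ·) G → (K ∩ G).Nonempty)
    (hmin : ∀ x ∈ K, ¬ ∀ G, IsMaxChain (· ≤ ·) G → ((K \ {x}) ∩ G).Nonempty) :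
    IsAntichain (· ≤ ·) K := by
  have hK : ∀ k ∈ K, ∃ G, IsMaxChain (· ≤ ·) G ∧ k ∈ G ∧ ∀ z ∈ G, z ∈ K → z = k := by
    intro k hk
    have := hmin k hk
    push Not at this
    obtain ⟨G, hG, he⟩ := this
    have h1 : ∀ z ∈ G, z ∈ K → z = k := by
      intro z hz hzK
      by_contra hne
      have : z ∈ (K \ {k}) ∩ G := ⟨⟨hzK, hne⟩, hz⟩
      rw [he] at this
      exact this
    obtain ⟨z, hz1, hz2⟩ := hcut G hG
    exact ⟨G, hG, h1 z hz2 hz1 ▸ hz2, h1⟩
  have one : ∀ e ∈ K, (∀ G, IsMaxChain (· ≤ ·) G → e ∈ G) → IsAntichain (· ≤ ·) K := by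
    intro e he hG
    have : ∀ k ∈ K, e = k := fun k hk => by
      obtain ⟨G, h1, -, h2⟩ := hK k hk
      exact h2 e (hG G h1) he
    intro a ha b hb hab
    exact absurd ((this a ha).symm.trans (this b hb)) hab
  rcases no_cut hcut hK with h | h
  · exact one _ h fun G hG => mem_max hG fun c _ => Or.inl (bot_le' c)
  · exact one _ h fun G hG => mem_max hG fun c _ => Or.inr (le_top' c)

noncomputable def l0 : L := ((0, 0), (0, 0))

lemma X0 : X 0 l0 l0 = 0 := by simp [X, l0]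
lemma E0 : E 0 l0 l0 = 0 := by simp [E, l0]

theorem hasN : ∃ a b c d : P, a ≠ b ∧ a ≠ c ∧ a ≠ d ∧ b ≠ c ∧ b ≠ d ∧ c ≠ d ∧
    a < c ∧ b ⋖ c ∧ b < d ∧ ¬ a ≤ b ∧ ¬ b ≤ a ∧ ¬ a ≤ d ∧ ¬ d ≤ a ∧ ¬ c ≤ d ∧ ¬ d ≤ c := by
  have h := lo_lt_hi 0
  have n1 : ∀ p q, ¬ mid (0 + 1) l0 p ≤ mid 0 l0 q := fun p q hh => by
    have := lev hh; omega
  refine ⟨mid (0 + 1) l0 (lo 0), mid 0 l0 (lo 0), mid (0 + 1) l0 (hi 0), mid 0 l0 (hi 0),
    by simp, by simp [h.ne], by simp, by simp, by simp [h.ne], by simp, lt_same h,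
    ⟨lt_lev (next.2 (by simp [X0, E0])) (by omega), fun z h1 h2 => ?_⟩, lt_same h,
    n1 _ _, ?_, n1 _ _, ?_, n1 _ _, ?_⟩
  · cases z with
    | bot => exact absurd h1.le (by simp)
    | top => exact absurd h2.le (by simp)
    | mid i l p =>
      have a1 := lev h1.le
      have a2 := lev h2.le
      rcases (show i = 0 ∨ i = 0 + 1 by omega) with rfl | rfl
      · obtain ⟨rfl, h3⟩ := same.1 h1.le
        have h4 := (next.1 h2.le).1
        rw [X0] at h4
        rw [le_antisymm h3 h4] at h1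
        exact lt_irrefl _ h1
      · obtain ⟨rfl, h3⟩ := same.1 h2.le
        have h4 := (next.1 h1.le).2
        rw [E0] at h4
        rw [le_antisymm h3 h4] at h2
        exact lt_irrefl _ h2
  · rw [next, E0]; exact fun hh => absurd hh.2 (not_le.2 h)
  · rw [next, E0]; exact fun hh => absurd hh.2 (not_le.2 h)
  · rw [next, X0]; exact fun hh => absurd hh.1 (not_le.2 h)

end Pool.Agent.H.MP_3b1797_co
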